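import Pool.Agent.H10.CM.FStmts

set_option autoImplicit false

open Polynomial

namespace Pool.CM

theorem tcl (h1 : VALUStmt) : TCLStmt := by
  intro X E _ A hA i
  obtain ⟨-, -, -, -, -, -, hUphi⟩ := h1 X E A hA i
  refine ⟨?_, ?_, ?_, ?_, ?_, ?_, ?_, ?_⟩
  · rintro d x ⟨g, hg, h, hh, e⟩
    have hu := hA.den_un i d h hh
    have hx : x = g * h⁻¹ := by
      rw [← e, mul_assoc, mul_inv_cancel₀ hu.1, mul_one]
    rw [hx]
    exact (A.O i).mul_mem (hA.pol_O i d g hg) hu.2.2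
  · rintro d e hde x ⟨g, hg, h, hh, ex⟩
    exact ⟨g, hA.pol_mono i d e hde hg, h, hA.den_mono i d e hde hh, ex⟩
  · rintro d e x y ⟨g, hg, h, hh, e1⟩ ⟨g', hg', h', hh', e2⟩
    refine ⟨g * h' + h * g', ?_, h * h', hA.den_mul i d e h h' hh hh', ?_⟩
    · exact (A.pol i (d + e)).add_mem (hA.pol_mul i d e g h' hg (hA.den_pol i e h' hh'))
        (hA.pol_mul i d e h g' (hA.den_pol i d h hh) hg')
    · rw [← e1, ← e2]
      ring
  · rintro d e x y ⟨g, hg, h, hh, e1⟩ ⟨g', hg', h', hh', e2⟩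
    refine ⟨g * g', hA.pol_mul i d e g g' hg hg', h * h', hA.den_mul i d e h h' hh hh', ?_⟩
    rw [← e1, ← e2]
    ring
  · rintro d x ⟨g, hg, h, hh, e⟩
    exact ⟨-g, (A.pol i d).neg_mem hg, h, hh, by rw [← e]; ring⟩
  · rintro d x ⟨g, hg, h, hh, e⟩
    refine ⟨A.phi i g, hA.pol_phi i d g hg, A.phi i h, hA.den_phi i d h hh, ?_⟩
    rw [← map_mul, e]
  · rintro d j x ⟨g, hg, h, hh, e⟩
    have hu := hA.den_un i d h hh
    refine ⟨A.D j g * h - g * A.D j h, ?_, h * h, hA.den_mul i d d h h hh hh, ?_⟩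
    · exact (A.pol i (d + d)).sub_mem
        (hA.pol_mul i d d _ h (hA.D_pol i j d g hg) (hA.den_pol i d h hh))
        (hA.pol_mul i d d g _ hg (hA.D_pol i j d h (hA.den_pol i d h hh)))
    · rw [← e, Derivation.leibniz, smul_eq_mul, smul_eq_mul]
      ring
  · intro d x hx
    exact ⟨x, hx, 1, hA.den_mono i 0 d (Nat.zero_le d) (hA.den_one i), mul_one x⟩

end Pool.CM
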