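import Pool.Agent.H10.CM.FStmts

set_option autoImplicit false

open Polynomial

namespace Pool.CM

theorem tfx (h1 : TCLStmt) : TFXStmt := by
  intro X E _ A hA x
  by_cases hx : x = 0
  · refine ⟨0, Idx.Ev.of_forall fun i => ?_⟩
    obtain ⟨-, -, -, -, -, -, -, h⟩ := h1 X E A hA i
    rw [hx]
    exact h 0 0 (A.pol i 0).zero_mem
  · obtain ⟨d, hd⟩ := hA.fixed x hx
    refine ⟨d, hd.mono fun i hi => ?_⟩
    obtain ⟨g, hg, h, hh, e⟩ := hi
    exact ⟨g, hA.den_pol i d g hg, h, hh, e⟩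

end Pool.CM
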